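import Mathlib

set_option linter.unusedSectionVars false

namespace Pool.Agent.R5.FF

open Finset

variable {V : Type} [Fintype V] [DecidableEq V]

lemma exists_perm {s : ℕ} (a b : Fin s ↪ V) : ∃ σ : Equiv.Perm V, ∀ i, σ (a i) = b i := by
  have := Equiv.Perm.isMultiplyPretransitive V s
  obtain ⟨g, hg⟩ := MulAction.exists_smul_eq (Equiv.Perm V) a b
  refine ⟨g, fun i => ?_⟩
  have := congrArg (fun f : Fin s ↪ V => f i) hg
  simpa using this

lemma fiber_card {s k : ℕ} (π : Fin s ↪ Fin k) (a b : Fin s ↪ V) :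
    (univ.filter (fun v : Fin k ↪ V => π.trans v = a)).card =
      (univ.filter (fun v : Fin k ↪ V => π.trans v = b)).card := by
  obtain ⟨σ, hσ⟩ := exists_perm a b
  refine Finset.card_bij' (fun v _ => v.trans σ.toEmbedding) (fun v _ => v.trans σ.symm.toEmbedding)
    ?_ ?_ ?_ ?_
  · intro v hv
    simp only [mem_filter, mem_univ, true_and] at hv ⊢
    ext i
    have := congrArg (fun f : Fin s ↪ V => f i) hv
    simp only [Function.Embedding.trans_apply] at this
    simp [this, hσ]
  · intro v hv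
    simp only [mem_filter, mem_univ, true_and] at hv ⊢
    ext i
    have := congrArg (fun f : Fin s ↪ V => f i) hv
    simp only [Function.Embedding.trans_apply] at this
    simp [this, ← hσ]
  · intro v _
    ext i
    simp
  · intro v _
    ext i
    simp

/-- number of embeddings -/
noncomputable def E (V : Type) [Fintype V] [DecidableEq V] (s : ℕ) : ℚ := Fintype.card (Fin s ↪ V)

lemma avg {s k : ℕ} (π : Fin s ↪ Fin k) (φ : (Fin s ↪ V) → ℚ) :
    E V s * ∑ v : Fin k ↪ V, φ (π.trans v) = E V k * ∑ a : Fin s ↪ V, φ a := by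
  have h1 : ∀ a : Fin s ↪ V, E V s * ((univ.filter (fun v : Fin k ↪ V => π.trans v = a)).card : ℚ)
      = E V k := by
    intro a
    have h2 : ∑ b : Fin s ↪ V, (univ.filter (fun v : Fin k ↪ V => π.trans v = b)).card =
        Fintype.card (Fin k ↪ V) := by
      rw [← Finset.card_univ]
      exact (Finset.card_eq_sum_card_fiberwise (fun v _ => mem_univ _)).symm
    rw [Finset.sum_congr rfl (fun b _ => fiber_card π b a)] at h2
    simp only [sum_const, smul_eq_mul, card_univ] at h2
    unfold E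
    exact_mod_cast h2
  have h3 : ∑ v : Fin k ↪ V, φ (π.trans v) =
      ∑ a : Fin s ↪ V, φ a * ((univ.filter (fun v : Fin k ↪ V => π.trans v = a)).card : ℚ) := by
    rw [← Finset.sum_fiberwise_of_maps_to (s := univ) (t := univ)
      (g := fun v : Fin k ↪ V => π.trans v) (fun v _ => mem_univ _)]
    apply Finset.sum_congr rfl
    intro a _
    rw [Finset.sum_congr rfl (g := fun _ => φ a)]
    · simp [mul_comm]
    · intro v hv
      simp only [mem_filter, mem_univ, true_and] at hv
      rw [hv]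
  rw [h3, Finset.mul_sum, Finset.mul_sum]
  apply Finset.sum_congr rfl
  intro a _
  rw [← h1 a]
  ring

lemma E_eq (s : ℕ) : E V s = ((Fintype.card V).descFactorial s : ℚ) := by
  unfold E
  rw [Fintype.card_embedding_eq]
  simp

/-- tuples of two elements -/
def eq2 : (V × V) ≃ (Fin 2 → V) where
  toFun p := ![p.1, p.2]
  invFun f := (f 0, f 1)
  left_inv p := by simp
  right_inv f := by ext i; fin_cases i <;> rfl

/-- tuples of three elements -/
def eq3 : (V × V × V) ≃ (Fin 3 → V) where
  toFun p := ![p.1, p.2.1, p.2.2]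
  invFun f := (f 0, f 1, f 2)
  left_inv p := by simp
  right_inv f := by ext i; fin_cases i <;> rfl

/-- tuples of four elements -/
def eq4 : (V × V × V × V) ≃ (Fin 4 → V) where
  toFun p := ![p.1, p.2.1, p.2.2.1, p.2.2.2]
  invFun f := (f 0, f 1, f 2, f 3)
  left_inv p := by simp
  right_inv f := by ext i; fin_cases i <;> rfl

lemma sum_emb (s : ℕ) (φ : (Fin s → V) → ℚ) :
    ∑ a : Fin s ↪ V, φ a = ∑ f : Fin s → V, if Function.Injective f then φ f else 0 := by
  rw [← Finset.sum_filter]
  refine Finset.sum_bij' (fun a _ => (a : Fin s → V))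
    (fun f hf => ⟨f, by simpa using hf⟩) ?_ ?_ ?_ ?_ ?_
  · intro a _; simp [a.injective]
  · intro f _; simp
  · intro a _; rfl
  · intro f _; rfl
  · intro a _; rfl

lemma inj2 (x y : V) : Function.Injective ![x, y] ↔ x ≠ y := by
  constructor
  · intro h hxy
    have := @h 0 1 (by simp [hxy])
    simp at this
  · intro h i j hij
    fin_cases i <;> fin_cases j <;> simp_all

lemma inj3 (x y z : V) : Function.Injective ![x, y, z] ↔ x ≠ y ∧ x ≠ z ∧ y ≠ z := by
  constructor
  · intro h
    refine ⟨?_, ?_, ?_⟩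
    · intro hxy
      have := @h 0 1 (by simp [hxy])
      simp at this
    · intro hxy
      have := @h 0 2 (by simp [hxy])
      simp at this
    · intro hxy
      have := @h 1 2 (by simp [hxy])
      simp at this
  · intro h i j hij
    fin_cases i <;> fin_cases j <;> simp_all [eq_comm]

lemma inj4 (x y z w : V) : Function.Injective ![x, y, z, w] ↔
    x ≠ y ∧ x ≠ z ∧ x ≠ w ∧ y ≠ z ∧ y ≠ w ∧ z ≠ w := by
  constructor
  · intro h
    refine ⟨?_, ?_, ?_, ?_, ?_, ?_⟩
    · intro hxy
      have := @h 0 1 (by simp [hxy])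
      simp at this
    · intro hxy
      have := @h 0 2 (by simp [hxy])
      simp at this
    · intro hxy
      have := @h 0 3 (by simp [hxy])
      simp at this
    · intro hxy
      have := @h 1 2 (by simp [hxy])
      simp at this
    · intro hxy
      have := @h 1 3 (by simp [hxy])
      simp at this
    · intro hxy
      have := @h 2 3 (by simp [hxy])
      simp at this
  · intro h i j hij
    fin_cases i <;> fin_cases j <;> simp_all [eq_comm]

lemma sum2 (φ : (Fin 2 → V) → ℚ) : ∑ a : Fin 2 ↪ V, φ a =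
    ∑ x : V, ∑ y : V, if x ≠ y then φ ![x, y] else 0 := by
  rw [sum_emb, ← Equiv.sum_comp eq2, Fintype.sum_prod_type]
  refine Finset.sum_congr rfl fun x _ => Finset.sum_congr rfl fun y _ => ?_
  simp only [eq2, Equiv.coe_fn_mk, inj2]

lemma sum3 (φ : (Fin 3 → V) → ℚ) : ∑ a : Fin 3 ↪ V, φ a =
    ∑ x : V, ∑ y : V, ∑ z : V, if x ≠ y ∧ x ≠ z ∧ y ≠ z then φ ![x, y, z] else 0 := by
  rw [sum_emb, ← Equiv.sum_comp eq3, Fintype.sum_prod_type]
  refine Finset.sum_congr rfl fun x _ => ?_
  rw [Fintype.sum_prod_type]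
  refine Finset.sum_congr rfl fun y _ => Finset.sum_congr rfl fun z _ => ?_
  simp only [eq3, Equiv.coe_fn_mk, inj3]

lemma sum4 (φ : (Fin 4 → V) → ℚ) : ∑ a : Fin 4 ↪ V, φ a =
    ∑ x : V, ∑ y : V, ∑ z : V, ∑ w : V,
      if x ≠ y ∧ x ≠ z ∧ x ≠ w ∧ y ≠ z ∧ y ≠ w ∧ z ≠ w then φ ![x, y, z, w] else 0 := by
  rw [sum_emb, ← Equiv.sum_comp eq4, Fintype.sum_prod_type]
  refine Finset.sum_congr rfl fun x _ => ?_
  rw [Fintype.sum_prod_type]
  refine Finset.sum_congr rfl fun y _ => ?_
  rw [Fintype.sum_prod_type]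
  refine Finset.sum_congr rfl fun z _ => Finset.sum_congr rfl fun w _ => ?_
  simp only [eq4, Equiv.coe_fn_mk, inj4]

end Pool.Agent.R5.FF
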