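import Mathlib

namespace Pool.Agent.R5.FF

/-- The number of frustrated `k`-cycles of `G`, in the convention of ordered sequences: the number
of injective sequences `v 0, …, v (k - 1)` of vertices, read cyclically (`finRotate k i` is `i + 1`
modulo `k`), with an odd number of indices `i` such that `v i` and `v (i + 1)` are adjacent. -/
noncomputable def frus {V : Type} (k : ℕ) (G : SimpleGraph V) : ℕ :=
  Nat.card {v : Fin k ↪ V // Odd (Nat.card {i : Fin k // G.Adj (v i) (v (finRotate k i))})}

/-- The star with `m` edges (centre `0`, leaves `1, …, m`) together with isolated vertices, on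
`n` vertices (for `m < n`). -/
def starG (n m : ℕ) : SimpleGraph (Fin n) where
  Adj a b := (a.val = 0 ∧ 1 ≤ b.val ∧ b.val ≤ m) ∨ (b.val = 0 ∧ 1 ≤ a.val ∧ a.val ≤ m)
  symm := ⟨fun a b h => h.symm⟩
  loopless := ⟨fun a h => by omega⟩

/-- The complete bipartite graph with the parts `A` and its complement. -/
def cbip {V : Type} (A : Set V) : SimpleGraph V where
  Adj x y := (x ∈ A ∧ y ∉ A) ∨ (x ∉ A ∧ y ∈ A)
  symm := ⟨fun x y h => by tauto⟩
  loopless := ⟨fun x h => by tauto⟩

end Pool.Agent.R5.FF
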