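import Pool.Agent.R5.FF.Struct

set_option linter.unusedSectionVars false

namespace Pool.Agent.R5.FF

open Finset

section star

lemma star_zero {n m : ℕ} {a b : Fin n} (h : (starG n m).Adj a b) : a.val = 0 ∨ b.val = 0 := by
  rcases h with h | h
  · exact Or.inl h.1
  · exact Or.inr h.1

lemma D_star (n m : ℕ) : D (starG n m) = 0 := by
  unfold D
  refine Finset.sum_eq_zero fun x _ => Finset.sum_eq_zero fun y _ => Finset.sum_eq_zero fun z _ =>
    Finset.sum_eq_zero fun w _ => ?_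
  split_ifs with h
  · obtain ⟨hxy, hxz, hxw, hyz, hyw, hzw⟩ := h
    unfold ind
    by_cases h1 : (starG n m).Adj x y
    · by_cases h2 : (starG n m).Adj z w
      · exfalso
        rcases star_zero h1 with h1 | h1 <;> rcases star_zero h2 with h2 | h2
        · exact hxz (Fin.ext (h1.trans h2.symm))
        · exact hxw (Fin.ext (h1.trans h2.symm))
        · exact hyz (Fin.ext (h1.trans h2.symm))
        · exact hyw (Fin.ext (h1.trans h2.symm))
      · simp [h2]
    · simp [h1]
  · rfl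

lemma nn_star {k n m : ℕ} (v : Fin k ↪ Fin n) : nn (starG n m) v ≤ 2 := by
  classical
  rw [nn_eq]
  by_cases h : ∃ i0, (v i0).val = 0
  · obtain ⟨i0, h0⟩ := h
    have hsub : univ.filter (fun i : Fin k => (starG n m).Adj (v i) (v (finRotate k i))) ⊆
        {i0, (finRotate k).symm i0} := by
      intro i hi
      simp only [mem_filter, mem_univ, true_and] at hi
      simp only [mem_insert, mem_singleton]
      rcases star_zero hi with h1 | h1
      · left
        exact v.injective (Fin.ext (h1.trans h0.symm))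
      · right
        have : finRotate k i = i0 := v.injective (Fin.ext (h1.trans h0.symm))
        rw [← this, Equiv.symm_apply_apply]
    exact (Finset.card_le_card hsub).trans Finset.card_le_two
  · push Not at h
    have : univ.filter (fun i : Fin k => (starG n m).Adj (v i) (v (finRotate k i))) = ∅ := by
      apply Finset.filter_eq_empty_iff.2
      intro i _ hi
      rcases star_zero hi with h1 | h1
      · exact h _ h1
      · exact h _ h1
    rw [this]; simp

lemma card_leaves {n m : ℕ} (h : m < n) :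
    (univ.filter (fun y : Fin n => 1 ≤ y.val ∧ y.val ≤ m)).card = m := by
  have h1 : (univ.filter (fun y : Fin n => 1 ≤ y.val ∧ y.val ≤ m)).image Fin.val = Finset.Icc 1 m := by
    ext z
    simp only [mem_image, mem_filter, mem_univ, true_and, mem_Icc]
    constructor
    · rintro ⟨y, hy, rfl⟩; exact hy
    · intro hz
      exact ⟨⟨z, by omega⟩, hz, rfl⟩
  rw [← Finset.card_image_of_injective _ Fin.val_injective, h1]
  simp

lemma M_star {n m : ℕ} (h : m < n) : M (starG n m) = 2 * m := by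
  have h0 : 0 < n := by omega
  have h1 : ∀ x y : Fin n, ind (starG n m) x y =
      (if x = ⟨0, h0⟩ then (if 1 ≤ y.val ∧ y.val ≤ m then (1 : ℚ) else 0) else 0) +
      (if y = ⟨0, h0⟩ then (if 1 ≤ x.val ∧ x.val ≤ m then (1 : ℚ) else 0) else 0) := by
    intro x y
    have hadj : (starG n m).Adj x y ↔ (x.val = 0 ∧ 1 ≤ y.val ∧ y.val ≤ m) ∨
      (y.val = 0 ∧ 1 ≤ x.val ∧ x.val ≤ m) := Iff.rfl
    have hx : x = ⟨0, h0⟩ ↔ x.val = 0 := by rw [Fin.ext_iff]
    have hy : y = ⟨0, h0⟩ ↔ y.val = 0 := by rw [Fin.ext_iff]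
    unfold ind
    simp only [hadj, hx, hy]
    split_ifs <;> first | omega | norm_num
  have h2 : ∀ x : Fin n, ∑ y : Fin n, (if y = ⟨0, h0⟩ then
      (if 1 ≤ x.val ∧ x.val ≤ m then (1 : ℚ) else 0) else 0) =
      (if 1 ≤ x.val ∧ x.val ≤ m then (1 : ℚ) else 0) := by
    intro x
    rw [Finset.sum_ite_eq']
    simp
  have h3 : ∑ x : Fin n, (if 1 ≤ x.val ∧ x.val ≤ m then (1 : ℚ) else 0) = m := by
    rw [← Finset.sum_filter, Finset.sum_const, card_leaves h]
    simp
  unfold M
  simp only [h1, Finset.sum_add_distrib, h2, h3]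
  rw [Finset.sum_comm]
  simp only [Finset.sum_ite_eq', mem_univ, if_true, h3]
  ring

end star

variable {V : Type} [Fintype V] [DecidableEq V]

lemma M_eq (H : SimpleGraph V) : M H = 2 * (H.edgeSet.ncard : ℚ) := by
  classical
  have h1 := H.sum_degrees_eq_twice_card_edges
  have h2 : M H = ((∑ v, H.degree v : ℕ) : ℚ) := by
    unfold M ind
    push_cast
    refine Finset.sum_congr rfl fun x _ => ?_
    rw [← SimpleGraph.card_neighborFinset_eq_degree, Finset.sum_boole]
    congr 2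
    ext y
    simp
  rw [h2, h1]
  have : H.edgeSet.ncard = H.edgeFinset.card := by
    rw [← SimpleGraph.coe_edgeFinset, Set.ncard_coe_finset]
  rw [this]
  push_cast
  ring

lemma edge_symmDiff (G H : SimpleGraph V) :
    symmDiff G.edgeSet H.edgeSet = (symmDiff G H).edgeSet := by
  unfold symmDiff
  simp

lemma key_inv {k : ℕ} (hk : 3 ≤ k) (G H : SimpleGraph V) (χ : V → ZMod 2) (ρ : ZMod 2)
    (h : ∀ x y, x ≠ y → A H x y = A G x y + χ x + χ y + ρ) :
    ((k : ZMod 2) * ρ = 0 → o k H = o k G) ∧ ((k : ZMod 2) * ρ = 1 → o k H + o k G = E V k) := by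
  have hp := fun v => par_switch G H χ ρ h v (fun i => rot_ne hk i)
  constructor
  · intro h0
    unfold o
    refine Finset.sum_congr rfl fun v _ => ?_
    rw [hp v, h0, add_zero]
  · intro h0
    unfold o
    rw [← Finset.sum_add_distrib]
    have : ∀ v : Fin k ↪ V, (if par H v = 1 then (1 : ℚ) else 0) + (if par G v = 1 then 1 else 0)
        = 1 := by
      intro v
      rw [hp v, h0]
      rcases (by decide : ∀ x : ZMod 2, x = 0 ∨ x = 1) (par G v) with h1 | h1
      · rw [h1]; simp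
      · rw [h1]
        have h2 : ((1 : ZMod 2) + 1) ≠ 1 := by decide
        rw [if_neg h2]; norm_num
    rw [Finset.sum_congr rfl (fun v _ => this v)]
    simp [E]

open Classical in
lemma A_symmDiff (G : SimpleGraph V) (χ : V → ZMod 2) (x y : V) :
    A (symmDiff G (cbip {x | χ x = 1})) x y = A G x y + χ x + χ y := by
  have hadj : (symmDiff G (cbip {x | χ x = 1})).Adj x y ↔
      (G.Adj x y ∧ ¬ ((χ x = 1 ∧ ¬ χ y = 1) ∨ (¬ χ x = 1 ∧ χ y = 1))) ∨
      (((χ x = 1 ∧ ¬ χ y = 1) ∨ (¬ χ x = 1 ∧ χ y = 1)) ∧ ¬ G.Adj x y) := Iff.rfl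
  unfold A
  simp only [hadj]
  have h01 : ((0 : ZMod 2) = 1) = False := by simp
  have h11 : (1 : ZMod 2) + 1 = 0 := by decide
  rcases (by decide : ∀ x : ZMod 2, x = 0 ∨ x = 1) (χ x) with h1 | h1 <;>
  rcases (by decide : ∀ x : ZMod 2, x = 0 ∨ x = 1) (χ y) with h2 | h2 <;>
  by_cases h3 : G.Adj x y <;> simp [h1, h2, h3, h11]

lemma A_compl (G : SimpleGraph V) (x y : V) (hxy : x ≠ y) : A Gᶜ x y = A G x y + 1 := by
  unfold A
  have h11 : (1 : ZMod 2) + 1 = 0 := by decide
  by_cases h : G.Adj x y <;> simp [h, hxy, h11]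

lemma exists_H (G : SimpleGraph V) (s e : V) (hse : s ≠ e)
    (hB : bad G s e < (Fintype.card V : ℚ) - 4) :
    ∃ (χ : V → ZMod 2) (ρ : ZMod 2) (B : Set V) (G' : SimpleGraph V),
      ((ρ = 0 ∧ G' = G) ∨ (ρ = 1 ∧ G' = Gᶜ)) ∧
      (∀ x y, x ≠ y → A (symmDiff G' (cbip B)) x y = A G x y + χ x + χ y + ρ) ∧
      M (symmDiff G' (cbip B)) ≤ bad G s e := by
  obtain ⟨χ, ρ, h⟩ := struct G s e hse hB
  have hind : ∀ (H : SimpleGraph V), (∀ x y, x ≠ y → A H x y = A G x y + χ x + χ y + ρ) →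
      M H ≤ bad G s e := by
    intro H hH
    refine le_trans (le_of_eq ?_) h
    unfold M
    refine Finset.sum_congr rfl fun x _ => Finset.sum_congr rfl fun y _ => ?_
    by_cases hxy : x = y
    · subst hxy; simp [ind_self]
    · rw [← hH x y hxy]
      unfold ind A
      by_cases hh : H.Adj x y <;> simp [hh, hxy]
  rcases (by decide : ∀ x : ZMod 2, x = 0 ∨ x = 1) ρ with h1 | h1
  · have hA : ∀ x y, x ≠ y → A (symmDiff G (cbip {x | χ x = 1})) x y =
        A G x y + χ x + χ y + ρ := by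
      intro x y hxy
      rw [A_symmDiff G χ x y, h1, add_zero]
    exact ⟨χ, ρ, {x | χ x = 1}, G, Or.inl ⟨h1, rfl⟩, hA, hind _ hA⟩
  · have hA : ∀ x y, x ≠ y → A (symmDiff Gᶜ (cbip {x | χ x = 1})) x y =
        A G x y + χ x + χ y + ρ := by
      intro x y hxy
      rw [A_symmDiff Gᶜ χ x y, A_compl G x y hxy, h1]
      ring
    exact ⟨χ, ρ, {x | χ x = 1}, Gᶜ, Or.inr ⟨h1, rfl⟩, hA, hind _ hA⟩

theorem main {k : ℕ} (hk : 3 ≤ k) (t n : ℕ) (hn : 8 * k ^ 2 * (t + 1) + 10 ≤ n)
    (G : SimpleGraph (Fin n)) (hlt : frus k G < frus k (starG n (t + 1))) :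
    ∃ B : Set (Fin n), (symmDiff G.edgeSet (cbip B).edgeSet).ncard ≤ t ∨
      (symmDiff Gᶜ.edgeSet (cbip B).edgeSet).ncard ≤ t := by
  have hltQ : o k G < o k (starG n (t + 1)) := by
    rw [← frus_eq, ← frus_eq]
    exact_mod_cast hlt
  have hk1 : 8 * k * (t + 1) ≤ 8 * k ^ 2 * (t + 1) := by
    have : k ≤ k ^ 2 := by nlinarith
    nlinarith
  have hk2 : 8 * k ≤ 8 * k * (t + 1) := Nat.le_mul_of_pos_right _ (by omega)
  have hkt : 24 * (t + 1) ≤ 8 * k * (t + 1) := by nlinarith
  have hcard : Fintype.card (Fin n) = n := Fintype.card_fin n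
  set N : ℚ := (n : ℚ) with hN
  set K : ℚ := (k : ℚ) with hK
  set T : ℚ := ((t : ℚ) + 1) with hT
  have hKpos : (3 : ℚ) ≤ K := by rw [hK]; exact_mod_cast hk
  have hTpos : (1 : ℚ) ≤ T := by rw [hT]; have : (0 : ℚ) ≤ t := Nat.cast_nonneg t; linarith
  have hNbig : 8 * K ^ 2 * T + 10 ≤ N := by
    rw [hK, hT, hN]; exact_mod_cast hn
  have hNbig1 : 8 * K * T + 10 ≤ N := by
    have h1 : K ≤ K ^ 2 := by nlinarith
    have h2 : K * T ≤ K ^ 2 * T := mul_le_mul_of_nonneg_right h1 (by linarith)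
    linarith
  have hE2pos : 0 < E (Fin n) 2 := E_pos (by rw [hcard]; omega)
  have hE3pos : 0 < E (Fin n) 3 := E_pos (by rw [hcard]; omega)
  have hE4pos : 0 < E (Fin n) 4 := E_pos (by rw [hcard]; omega)
  have hEkpos : 0 < E (Fin n) k := E_pos (by rw [hcard]; omega)
  have hE2 : E (Fin n) 2 = N * (N - 1) := by
    rw [E2 (by rw [hcard]; omega), hcard]
  have hE3 : E (Fin n) 3 = E (Fin n) 2 * (N - 2) := by
    rw [E3 (by rw [hcard]; omega), hcard]
  have hE4 : E (Fin n) 4 = E (Fin n) 3 * (N - 3) := by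
    rw [E4 (by rw [hcard]; omega), hcard]
  have hMS : M (starG n (t + 1)) = 2 * T := by
    rw [M_star (by omega)]; push_cast; ring
  have hSup := upper hk (by rw [hcard]; omega) (starG n (t + 1)) (D_star n (t + 1))
    (fun v => nn_star v)
  rw [hMS, hcard] at hSup
  have hScr := crude hk (by rw [hcard]; omega) (starG n (t + 1))
  rw [hMS] at hScr
  -- few odd four-cycles
  have h4 := four_le hk (by rw [hcard]; omega) G
  have ho4 : o4 G < 4 * K * T * E (Fin n) 4 / E (Fin n) 2 := by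
    rw [lt_div_iff₀ hE2pos]
    have h5 : E (Fin n) k * o4 G < 2 * (E (Fin n) 4 * (K * (E (Fin n) k / E (Fin n) 2 * (2 * T)))) := by
      refine lt_of_le_of_lt h4 ?_
      have := lt_of_lt_of_le hltQ hScr
      have h6 : E (Fin n) 4 * o k G < E (Fin n) 4 * (K * (E (Fin n) k / E (Fin n) 2 * (2 * T))) :=
        mul_lt_mul_of_pos_left this hE4pos
      linarith
    have h7 : 2 * (E (Fin n) 4 * (K * (E (Fin n) k / E (Fin n) 2 * (2 * T)))) * E (Fin n) 2 =
        E (Fin n) k * (4 * K * T * E (Fin n) 4) := by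
      field_simp
      ring
    have h8 := mul_lt_mul_of_pos_right h5 hE2pos
    rw [h7] at h8
    have h9 : E (Fin n) k * (o4 G * E (Fin n) 2) < E (Fin n) k * (4 * K * T * E (Fin n) 4) := by
      linarith
    exact lt_of_mul_lt_mul_left h9 hEkpos.le
  obtain ⟨s, e, hse, hbad⟩ := exists_bad (by rw [hcard]; omega) G
  have hbadB : bad G s e < 4 * K * T := by
    have h5 : E (Fin n) 2 * bad G s e < 4 * K * T * E (Fin n) 4 / E (Fin n) 2 :=
      lt_of_le_of_lt hbad ho4
    rw [hE4, hE3] at h5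
    have h6 : 4 * K * T * (E (Fin n) 2 * (N - 2) * (N - 3)) / E (Fin n) 2 =
        4 * K * T * ((N - 2) * (N - 3)) := by
      field_simp
    rw [h6] at h5
    have h7 : 4 * K * T * ((N - 2) * (N - 3)) ≤ E (Fin n) 2 * (4 * K * T) := by
      rw [hE2]
      have : (N - 2) * (N - 3) ≤ N * (N - 1) := by nlinarith
      have h8 : 0 ≤ 4 * K * T := by positivity
      nlinarith
    exact lt_of_mul_lt_mul_left (lt_of_lt_of_le h5 h7) hE2pos.le
  obtain ⟨χ, ρ, B, G', hcase, hA, hM⟩ := exists_H G s e hse (by rw [hcard]; linarith)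
  set H := symmDiff G' (cbip B) with hH
  have hMH : M H < 4 * K * T := lt_of_le_of_lt hM hbadB
  have hm := M_eq H
  set m := H.edgeSet.ncard with hm'
  have hsd : (symmDiff G'.edgeSet (cbip B).edgeSet).ncard = m := by
    rw [edge_symmDiff]
  refine ⟨B, ?_⟩
  by_cases hmt : m ≤ t
  · rcases hcase with ⟨_, rfl⟩ | ⟨_, rfl⟩
    · left; rw [hsd]; exact hmt
    · right; rw [hsd]; exact hmt
  exfalso
  have hmT : T ≤ (m : ℚ) := by
    rw [hT]
    exact_mod_cast (by omega : t + 1 ≤ m)
  obtain ⟨hinv0, hinv1⟩ := key_inv hk G H χ ρ hA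
  rcases (by decide : ∀ x : ZMod 2, x = 0 ∨ x = 1) ((k : ZMod 2) * ρ) with h0 | h1
  · have hoH := hinv0 h0
    have hlow := lower hk (by rw [hcard]; omega) H
    rw [hoH, hcard, hm] at hlow
    have h5 : K * (E (Fin n) k / E (Fin n) 3) * (2 * T * (N - 1 - 2 * T / 2)) ≤
        K * (E (Fin n) k / E (Fin n) 3) * (2 * (m : ℚ) * (N - 1 - 2 * (m : ℚ) / 2)) := by
      apply mul_le_mul_of_nonneg_left _ (by positivity)
      have hmu : (m : ℚ) < 2 * K * T := by linarith
      have h6 : 0 ≤ ((m : ℚ) - T) * (N - 1 - m - T) := by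
        apply mul_nonneg (by linarith)
        have : T ≤ K * T := le_mul_of_one_le_left (by linarith) (by linarith)
        linarith
      have h7 : 2 * (m : ℚ) * (N - 1 - 2 * (m : ℚ) / 2) - 2 * T * (N - 1 - 2 * T / 2) =
          2 * (((m : ℚ) - T) * (N - 1 - m - T)) := by ring
      linarith
    linarith
  · have hoH := hinv1 h1
    have hcrH := crude hk (by rw [hcard]; omega) H
    have h5 : K * (E (Fin n) k / E (Fin n) 2 * M H) ≤
        K * (E (Fin n) k / E (Fin n) 2 * (4 * K * T)) := by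
      apply mul_le_mul_of_nonneg_left _ (by linarith)
      exact mul_le_mul_of_nonneg_left hMH.le (by positivity)
    have h6 : E (Fin n) k < K * (E (Fin n) k / E (Fin n) 2 * (4 * K * T)) +
        K * (E (Fin n) k / E (Fin n) 2 * (2 * T)) := by linarith
    have h7 : K * (E (Fin n) k / E (Fin n) 2 * (4 * K * T)) +
        K * (E (Fin n) k / E (Fin n) 2 * (2 * T)) =
        E (Fin n) k * ((4 * K ^ 2 * T + 2 * K * T) / E (Fin n) 2) := by
      field_simp
    rw [h7] at h6
    have h8 : 1 < (4 * K ^ 2 * T + 2 * K * T) / E (Fin n) 2 := by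
      by_contra hcon
      push Not at hcon
      have := mul_le_mul_of_nonneg_left hcon hEkpos.le
      linarith
    rw [lt_div_iff₀ hE2pos, one_mul, hE2] at h8
    have h9 : K ≤ K ^ 2 := by nlinarith
    have h10 : K * T ≤ K ^ 2 * T := mul_le_mul_of_nonneg_right h9 (by linarith)
    have h11 : 0 ≤ K ^ 2 * T := by positivity
    have h12 : N * 1 ≤ N * (N - 1) := mul_le_mul_of_nonneg_left (by linarith) (by linarith)
    linarith

end Pool.Agent.R5.FF
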