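import Pool.Agent.R5.FF.Par

set_option linter.unusedSectionVars false

namespace Pool.Agent.R5.FF

open Finset

variable {V : Type} [Fintype V] [DecidableEq V]

/-- parity of the closed walk x y z w x -/
noncomputable def p4 (G : SimpleGraph V) (x y z w : V) : ZMod 2 :=
  A G x y + A G y z + A G z w + A G w x

/-- indicator of odd closed walks -/
noncomputable def b4 (G : SimpleGraph V) (x y z w : V) : ℚ := if p4 G x y z w = 1 then 1 else 0

/-- replaces position `1` by the new position -/
def swp (K : ℕ) : Fin (K + 3) ↪ Fin (K + 4) where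
  toFun i := if i = 1 then Fin.last (K + 3) else i.castSucc
  inj' := by
    intro i j hij
    by_cases hi : i = 1 <;> by_cases hj : j = 1
    · rw [hi, hj]
    · simp only [hi, hj, if_true, if_false] at hij
      exact absurd hij.symm (Fin.castSucc_lt_last j).ne
    · simp only [hi, hj, if_true, if_false] at hij
      exact absurd hij (Fin.castSucc_lt_last i).ne
    · simp only [hi, hj, if_false] at hij
      exact Fin.castSucc_injective _ hij

lemma swp_one (K : ℕ) : swp K 1 = Fin.last (K + 3) := by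
  show (if (1 : Fin (K + 3)) = 1 then Fin.last (K + 3) else Fin.castSucc (1 : Fin (K + 3))) = _
  rw [if_pos rfl]

lemma swp_ne (K : ℕ) {i : Fin (K + 3)} (h : i ≠ 1) : swp K i = i.castSucc := by
  show (if i = 1 then Fin.last (K + 3) else i.castSucc) = _
  rw [if_neg h]

/-- the four positions -/
def pos4 (K : ℕ) : Fin 4 ↪ Fin (K + 4) where
  toFun := ![0, 1, 2, Fin.last (K + 3)]
  inj' := by
    rw [inj4]
    refine ⟨?_, ?_, ?_, ?_, ?_, ?_⟩
    · intro h; have := congrArg Fin.val h; simp at this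
    · intro h
      have h0 : ((2 : Fin (K + 4)) : ℕ) = 2 := rfl
      have := congrArg Fin.val h; rw [h0] at this; simp at this
    · intro h; have := congrArg Fin.val h; simp at this
    · intro h
      have h0 : ((2 : Fin (K + 4)) : ℕ) = 2 := rfl
      have := congrArg Fin.val h; rw [h0] at this; simp at this
    · intro h; have := congrArg Fin.val h; simp at this
    · intro h
      have h0 : ((2 : Fin (K + 4)) : ℕ) = 2 := rfl
      have := congrArg Fin.val h; rw [h0] at this; simp at this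

lemma par_swap (K : ℕ) (G : SimpleGraph V) (u : Fin (K + 4) ↪ V) :
    par G (Fin.castSuccEmb.trans u) + par G ((swp K).trans u) =
      p4 G (u 0) (u 1) (u 2) (u (Fin.last (K + 3))) := by
  unfold par
  rw [← Finset.sum_add_distrib]
  have h01 : (0 : Fin (K + 3)) ≠ 1 := by
    intro h; have := congrArg Fin.val h; simp at this
  have h21 : (2 : Fin (K + 3)) ≠ 1 := by
    intro h
    have h0 : ((2 : Fin (K + 3)) : ℕ) = 2 := rfl
    have := congrArg Fin.val h; rw [h0] at this; simp at this
  have hs : ∀ i : Fin (K + 3), i ∉ ({0, 1} : Finset (Fin (K + 3))) →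
      A G ((Fin.castSuccEmb.trans u) i)
        ((Fin.castSuccEmb.trans u) (finRotate (K + 3) i)) +
      A G (((swp K).trans u) i) (((swp K).trans u) (finRotate (K + 3) i)) = 0 := by
    intro i hi
    simp only [mem_insert, mem_singleton, not_or] at hi
    have h1 : finRotate (K + 3) i ≠ 1 := by
      rw [finRotate_apply]
      intro h
      apply hi.1
      simpa using h
    simp only [Function.Embedding.trans_apply]
    rw [swp_ne K hi.2, swp_ne K h1]
    exact CharTwo.add_self_eq_zero (R := ZMod 2) _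
  rw [← Finset.sum_subset (Finset.subset_univ ({0, 1} : Finset (Fin (K + 3))))
    (fun i _ hi => hs i hi)]
  rw [Finset.sum_pair h01]
  have r0 : finRotate (K + 3) 0 = 1 := by rw [finRotate_apply]; simp
  have r1 : finRotate (K + 3) 1 = 2 := by
    rw [finRotate_apply]
    rfl
  rw [r0, r1]
  simp only [Function.Embedding.trans_apply]
  rw [swp_one, swp_ne K h01, swp_ne K h21]
  unfold p4
  have c0 : Fin.castSuccEmb (0 : Fin (K + 3)) = (0 : Fin (K + 4)) := rfl
  have c1 : Fin.castSuccEmb (1 : Fin (K + 3)) = (1 : Fin (K + 4)) := rfl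
  have c2 : Fin.castSuccEmb (2 : Fin (K + 3)) = (2 : Fin (K + 4)) := rfl
  have d0 : Fin.castSucc (0 : Fin (K + 3)) = (0 : Fin (K + 4)) := rfl
  have d2 : Fin.castSucc (2 : Fin (K + 3)) = (2 : Fin (K + 4)) := rfl
  rw [c0, c1, c2, d0, d2, A_comm G (u (Fin.last (K + 3))) (u 0),
    A_comm G (u (Fin.last (K + 3))) (u 2)]
  ring

/-- odd four-cycles -/
noncomputable def o4 (G : SimpleGraph V) : ℚ :=
  ∑ x, ∑ y, ∑ z, ∑ w, if x ≠ y ∧ x ≠ z ∧ x ≠ w ∧ y ≠ z ∧ y ≠ w ∧ z ≠ w then
    b4 G x y z w else 0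

lemma four_le {k : ℕ} (hk : 3 ≤ k) (hV : k + 1 ≤ Fintype.card V) (G : SimpleGraph V) :
    E V k * o4 G ≤ 2 * (E V 4 * o k G) := by
  obtain ⟨K, rfl⟩ : ∃ K, k = K + 3 := ⟨k - 3, by omega⟩
  have hE : 0 < E V (K + 4) := E_pos hV
  have hE4 : 0 < E V 4 := E_pos (by omega)
  have hEk : 0 < E V (K + 3) := E_pos (by omega)
  have a1 := avg (V := V) (k := K + 4) (Fin.castSuccEmb : Fin (K + 3) ↪ Fin (K + 4))
    (fun v => if par G v = 1 then 1 else 0)
  have a2 := avg (V := V) (swp K) (fun v => if par G v = 1 then 1 else 0)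
  have a4 := avg (V := V) (pos4 K) (fun a => b4 G (a 0) (a 1) (a 2) (a 3))
  have h4 : ∑ a : Fin 4 ↪ V, b4 G (a 0) (a 1) (a 2) (a 3) = o4 G := by
    rw [sum4 (fun a => b4 G (a 0) (a 1) (a 2) (a 3))]
    unfold o4
    simp
  rw [h4] at a4
  have hk1 : ∑ a : Fin (K + 3) ↪ V, (if par G a = 1 then (1 : ℚ) else 0) = o (K + 3) G := rfl
  rw [hk1] at a1 a2
  have hle : ∑ v : Fin (K + 4) ↪ V, b4 G (((pos4 K).trans v) 0) (((pos4 K).trans v) 1)
      (((pos4 K).trans v) 2) (((pos4 K).trans v) 3) ≤
      ∑ v : Fin (K + 4) ↪ V,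
        (if par G ((Fin.castSuccEmb : Fin (K + 3) ↪ Fin (K + 4)).trans v) = 1
          then (1 : ℚ) else 0) +
      ∑ v : Fin (K + 4) ↪ V, (if par G ((swp K).trans v) = 1 then (1 : ℚ) else 0) := by
    rw [← Finset.sum_add_distrib]
    refine Finset.sum_le_sum fun u _ => ?_
    have h := par_swap K G u
    have hp : p4 G (((pos4 K).trans u) 0) (((pos4 K).trans u) 1)
      (((pos4 K).trans u) 2) (((pos4 K).trans u) 3) =
      par G (Fin.castSuccEmb.trans u) + par G ((swp K).trans u) := by
      rw [h]; rfl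
    unfold b4
    rw [hp]
    generalize par G (Fin.castSuccEmb.trans u) = α
    generalize par G ((swp K).trans u) = β
    revert α β
    have key : ∀ α β : ZMod 2, (if α + β = 1 then (1 : ℚ) else 0) ≤
        (if α = 1 then (1 : ℚ) else 0) + (if β = 1 then (1 : ℚ) else 0) := by
      intro α β
      have h2 : ((1 : ZMod 2) + 1) ≠ 1 := by decide
      rcases (by decide : ∀ x : ZMod 2, x = 0 ∨ x = 1) α with rfl | rfl <;>
      rcases (by decide : ∀ x : ZMod 2, x = 0 ∨ x = 1) β with rfl | rfl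
      · simp
      · simp
      · simp
      · rw [if_neg h2]; norm_num
    exact key
  -- combine
  have b1 : ∑ v : Fin (K + 4) ↪ V,
        (if par G ((Fin.castSuccEmb : Fin (K + 3) ↪ Fin (K + 4)).trans v) = 1
          then (1 : ℚ) else 0) = E V (K + 4) * o (K + 3) G / E V (K + 3) := by
    rw [eq_div_iff hEk.ne']
    linarith
  have b2 : ∑ v : Fin (K + 4) ↪ V, (if par G ((swp K).trans v) = 1 then (1 : ℚ) else 0) =
      E V (K + 4) * o (K + 3) G / E V (K + 3) := by
    rw [eq_div_iff hEk.ne']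
    linarith
  have b4' : ∑ v : Fin (K + 4) ↪ V, b4 G (((pos4 K).trans v) 0) (((pos4 K).trans v) 1)
      (((pos4 K).trans v) 2) (((pos4 K).trans v) 3) = E V (K + 4) * o4 G / E V 4 := by
    rw [eq_div_iff hE4.ne']
    linarith
  rw [b1, b2, b4'] at hle
  rw [← add_div, div_le_div_iff₀ hE4 hEk] at hle
  have : E V (K + 4) * (E V (K + 3) * o4 G) ≤ E V (K + 4) * (2 * (E V 4 * o (K + 3) G)) := by
    linarith
  exact le_of_mul_le_mul_left this hE

/-- odd four-cycles through a fixed pair -/
noncomputable def bad (G : SimpleGraph V) (s e : V) : ℚ :=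
  ∑ x, ∑ y, if s ≠ x ∧ s ≠ y ∧ e ≠ x ∧ e ≠ y ∧ x ≠ y then b4 G s e x y else 0

lemma bad_nonneg (G : SimpleGraph V) (s e : V) : 0 ≤ bad G s e := by
  unfold bad b4
  refine Finset.sum_nonneg fun x _ => Finset.sum_nonneg fun y _ => ?_
  split_ifs <;> simp

lemma exists_bad (hV : 2 ≤ Fintype.card V) (G : SimpleGraph V) :
    ∃ s e : V, s ≠ e ∧ E V 2 * bad G s e ≤ o4 G := by
  by_contra hcon
  push Not at hcon
  have h1 : o4 G = ∑ s, ∑ e, if s ≠ e then bad G s e else 0 := by
    unfold o4 bad
    refine Finset.sum_congr rfl fun s _ => Finset.sum_congr rfl fun e _ => ?_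
    by_cases hse : s = e
    · simp [hse]
    · simp only [ne_eq, hse, not_false_eq_true, true_and, if_true]
  have h2 : ∑ s : V, ∑ e : V, (if s ≠ e then (1 : ℚ) else 0) = E V 2 := by
    have := sum2 (V := V) (fun _ => (1 : ℚ))
    rw [← this]
    simp [E]
  have hE2 : 0 < E V 2 := E_pos hV
  have h3 : ∑ s : V, ∑ e : V, (if s ≠ e then (o4 G / E V 2) else 0) <
      ∑ s : V, ∑ e : V, if s ≠ e then bad G s e else 0 := by
    obtain ⟨s0, e0, hse⟩ := Fintype.exists_pair_of_one_lt_card (show 1 < Fintype.card V by omega)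
    have hlt : ∀ s e : V, s ≠ e → o4 G / E V 2 < bad G s e := by
      intro s e h
      rw [div_lt_iff₀ hE2]
      have := hcon s e h
      linarith
    have hle : ∀ s e : V, (if s ≠ e then (o4 G / E V 2) else 0) ≤
        (if s ≠ e then bad G s e else 0) := by
      intro s e
      split_ifs with h
      · exact (hlt s e h).le
      · exact le_rfl
    refine Finset.sum_lt_sum (fun s _ => Finset.sum_le_sum fun e _ => hle s e)
      ⟨s0, mem_univ _, Finset.sum_lt_sum (fun e _ => hle s0 e) ⟨e0, mem_univ _, ?_⟩⟩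
    rw [if_pos hse, if_pos hse]
    exact hlt s0 e0 hse
  have h4 : ∑ s : V, ∑ e : V, (if s ≠ e then (o4 G / E V 2) else 0) = o4 G := by
    have : ∀ s e : V, (if s ≠ e then (o4 G / E V 2) else 0) =
        (if s ≠ e then (1 : ℚ) else 0) * (o4 G / E V 2) := by
      intro s e
      split_ifs <;> simp
    simp only [this, ← Finset.sum_mul]
    rw [h2]
    field_simp
  rw [h4, ← h1] at h3
  exact lt_irrefl _ h3

end Pool.Agent.R5.FF
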