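import Pool.Agent.R5.FF.Avg

set_option linter.unusedSectionVars false

namespace Pool.Agent.R5.FF

open Finset

variable {V : Type} [Fintype V] [DecidableEq V]

open Classical in
/-- adjacency indicator -/
noncomputable def ind (G : SimpleGraph V) (x y : V) : ℚ := if G.Adj x y then 1 else 0

lemma ind_self (G : SimpleGraph V) (x : V) : ind G x x = 0 := by simp [ind]

lemma ind_comm (G : SimpleGraph V) (x y : V) : ind G x y = ind G y x := by
  by_cases h : G.Adj x y
  · simp [ind, h, h.symm]
  · have h' : ¬ G.Adj y x := fun h' => h h'.symm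
    simp [ind, h, h']

lemma ind_sq (G : SimpleGraph V) (x y : V) : ind G x y * ind G x y = ind G x y := by
  by_cases h : G.Adj x y <;> simp [ind, h]

lemma ind_nonneg (G : SimpleGraph V) (x y : V) : 0 ≤ ind G x y := by
  by_cases h : G.Adj x y <;> simp [ind, h]

/-- twice the number of edges -/
noncomputable def M (G : SimpleGraph V) : ℚ := ∑ x, ∑ y, ind G x y

/-- sum of the squares of the degrees -/
noncomputable def S (G : SimpleGraph V) : ℚ := ∑ x, ∑ y, ∑ z, ind G x y * ind G x z

/-- ordered paths with three vertices -/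
noncomputable def Q (G : SimpleGraph V) : ℚ :=
  ∑ x, ∑ y, ∑ z, if x ≠ y ∧ x ≠ z ∧ y ≠ z then ind G x y * ind G y z else 0

/-- ordered pairs of disjoint edges -/
noncomputable def D (G : SimpleGraph V) : ℚ :=
  ∑ x, ∑ y, ∑ z, ∑ w, if x ≠ y ∧ x ≠ z ∧ x ≠ w ∧ y ≠ z ∧ y ≠ w ∧ z ≠ w then
    ind G x y * ind G z w else 0

lemma Q_eq (G : SimpleGraph V) : Q G = S G - M G := by
  have h1 : ∀ x y z : V, (if x ≠ y ∧ x ≠ z ∧ y ≠ z then ind G x y * ind G y z else 0) =
      ind G y x * ind G y z - if x = z then ind G y x * ind G y z else 0 := by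
    intro x y z
    by_cases hxy : x = y
    · subst hxy; simp [ind_self]
    by_cases hyz : y = z
    · subst hyz; simp [ind_self]
    by_cases hxz : x = z
    · subst hxz; simp
    · simp [hxy, hyz, hxz, ind_comm G x y]
  unfold Q
  simp only [h1, Finset.sum_sub_distrib, Finset.sum_ite_eq, Finset.mem_univ, if_true, ind_sq]
  congr 1
  · rw [Finset.sum_comm]; rfl
  · rw [Finset.sum_comm]; rfl

lemma D_eq (G : SimpleGraph V) : D G = M G ^ 2 - 4 * S G + 2 * M G := by
  have h1 : ∀ x y z w : V, (if x ≠ y ∧ x ≠ z ∧ x ≠ w ∧ y ≠ z ∧ y ≠ w ∧ z ≠ w then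
      ind G x y * ind G z w else 0) =
      ind G x y * ind G z w - (if x = z then ind G x y * ind G z w else 0)
        - (if x = w then ind G x y * ind G z w else 0)
        - (if y = z then ind G x y * ind G z w else 0)
        - (if y = w then ind G x y * ind G z w else 0)
        + (if x = z then (if y = w then ind G x y * ind G z w else 0) else 0)
        + (if x = w then (if y = z then ind G x y * ind G z w else 0) else 0) := by
    intro x y z w
    by_cases hxy : x = y
    · subst hxy; simp [ind_self]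
    by_cases hzw : z = w
    · subst hzw; simp [ind_self]
    by_cases hxz : x = z
    · subst hxz
      have hyx : y ≠ x := fun h => hxy h.symm
      by_cases hyw : y = w
      · subst hyw; simp [hxy, hyx]
      · simp [hxy, hzw, hyw, hyx]
    by_cases hxw : x = w
    · subst hxw
      have hyx : y ≠ x := fun h => hxy h.symm
      by_cases hyz : y = z
      · subst hyz; simp [hxy, hyx]
      · simp [hxy, hxz, hyz, hyx]
    by_cases hyz : y = z
    · subst hyz; simp [hxy, hxw, hzw]
    by_cases hyw : y = w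
    · subst hyw; simp [hxy, hxz, hyz]
    simp [hxy, hxz, hxw, hyz, hyw, hzw]
  have e0 : ∑ x, ∑ y, ∑ z, ∑ w, ind G x y * ind G z w = M G ^ 2 := by
    unfold M
    rw [sq, Finset.sum_mul]
    refine Finset.sum_congr rfl fun x _ => ?_
    rw [Finset.sum_mul]
    refine Finset.sum_congr rfl fun y _ => ?_
    rw [Finset.mul_sum]
    refine Finset.sum_congr rfl fun z _ => ?_
    rw [Finset.mul_sum]
  have e1 : ∑ x, ∑ y, ∑ z, ∑ w, (if x = z then ind G x y * ind G z w else 0) = S G := by
    unfold S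
    refine Finset.sum_congr rfl fun x _ => Finset.sum_congr rfl fun y _ => ?_
    rw [Finset.sum_comm]
    simp
  have e2 : ∑ x, ∑ y, ∑ z, ∑ w, (if x = w then ind G x y * ind G z w else 0) = S G := by
    unfold S
    refine Finset.sum_congr rfl fun x _ => Finset.sum_congr rfl fun y _ => ?_
    refine Finset.sum_congr rfl fun z _ => ?_
    simp [ind_comm G z x]
  have e3 : ∑ x, ∑ y, ∑ z, ∑ w, (if y = z then ind G x y * ind G z w else 0) = S G := by
    unfold S
    rw [Finset.sum_comm]
    refine Finset.sum_congr rfl fun y _ => Finset.sum_congr rfl fun x _ => ?_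
    rw [Finset.sum_comm]
    simp [ind_comm G x y]
  have e4 : ∑ x, ∑ y, ∑ z, ∑ w, (if y = w then ind G x y * ind G z w else 0) = S G := by
    unfold S
    rw [Finset.sum_comm]
    refine Finset.sum_congr rfl fun y _ => Finset.sum_congr rfl fun x _ => ?_
    refine Finset.sum_congr rfl fun z _ => ?_
    simp [ind_comm G x y, ind_comm G z y]
  have e5 : ∑ x, ∑ y, ∑ z, ∑ w,
      (if x = z then (if y = w then ind G x y * ind G z w else 0) else 0) = M G := by
    unfold M
    refine Finset.sum_congr rfl fun x _ => Finset.sum_congr rfl fun y _ => ?_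
    rw [Finset.sum_comm]
    simp [ind_sq]
  have e6 : ∑ x, ∑ y, ∑ z, ∑ w,
      (if x = w then (if y = z then ind G x y * ind G z w else 0) else 0) = M G := by
    unfold M
    refine Finset.sum_congr rfl fun x _ => Finset.sum_congr rfl fun y _ => ?_
    simp [ind_comm G y x, ind_sq]
  unfold D
  simp only [h1, Finset.sum_sub_distrib, Finset.sum_add_distrib, e0, e1, e2, e3, e4, e5, e6]
  ring

lemma identity (G : SimpleGraph V) : M G ^ 2 = 2 * M G + 4 * Q G + D G := by
  rw [D_eq, Q_eq]; ring

lemma D_nonneg (G : SimpleGraph V) : 0 ≤ D G := by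
  unfold D
  refine Finset.sum_nonneg fun x _ => Finset.sum_nonneg fun y _ => Finset.sum_nonneg fun z _ =>
    Finset.sum_nonneg fun w _ => ?_
  split_ifs
  · exact mul_nonneg (ind_nonneg _ _ _) (ind_nonneg _ _ _)
  · exact le_rfl

/-- the number of edges of the cycle in `G` -/
noncomputable def NQ {k : ℕ} (G : SimpleGraph V) (v : Fin k ↪ V) : ℚ :=
  ∑ i, ind G (v i) (v (finRotate k i))

lemma sum_pos2 {k : ℕ} (G : SimpleGraph V) (i j : Fin k) (hij : i ≠ j) :
    E V 2 * ∑ v : Fin k ↪ V, ind G (v i) (v j) = E V k * M G := by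
  have hinj : Function.Injective ![i, j] := by
    intro a b hab
    fin_cases a <;> fin_cases b <;> simp_all
  have h := avg (V := V) ⟨![i, j], hinj⟩ (fun a => ind G (a 0) (a 1))
  simp only [Function.Embedding.trans_apply, Function.Embedding.coeFn_mk, Matrix.cons_val_zero,
    Matrix.cons_val_one] at h
  rw [h]
  congr 1
  rw [sum2 (fun a => ind G (a 0) (a 1))]
  unfold M
  refine Finset.sum_congr rfl fun x _ => Finset.sum_congr rfl fun y _ => ?_
  by_cases hxy : x = y
  · subst hxy; simp [ind_self]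
  · simp [hxy]

lemma sum_pos3 {k : ℕ} (G : SimpleGraph V) (i j l : Fin k) (hij : i ≠ j) (hil : i ≠ l)
    (hjl : j ≠ l) :
    E V 3 * ∑ v : Fin k ↪ V, ind G (v i) (v j) * ind G (v j) (v l) = E V k * Q G := by
  have hinj : Function.Injective ![i, j, l] := (inj3 i j l).2 ⟨hij, hil, hjl⟩
  have h := avg (V := V) ⟨![i, j, l], hinj⟩ (fun a => ind G (a 0) (a 1) * ind G (a 1) (a 2))
  simp only [Function.Embedding.trans_apply, Function.Embedding.coeFn_mk, Matrix.cons_val_zero,
    Matrix.cons_val_one, Matrix.cons_val] at h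
  rw [h]
  congr 1
  rw [sum3 (fun a => ind G (a 0) (a 1) * ind G (a 1) (a 2))]
  unfold Q
  simp

lemma sum_pos4 {k : ℕ} (G : SimpleGraph V) (i j l m : Fin k) (hij : i ≠ j) (hil : i ≠ l)
    (him : i ≠ m) (hjl : j ≠ l) (hjm : j ≠ m) (hlm : l ≠ m) :
    E V 4 * ∑ v : Fin k ↪ V, ind G (v i) (v j) * ind G (v l) (v m) = E V k * D G := by
  have hinj : Function.Injective ![i, j, l, m] := (inj4 i j l m).2 ⟨hij, hil, him, hjl, hjm, hlm⟩
  have h := avg (V := V) ⟨![i, j, l, m], hinj⟩ (fun a => ind G (a 0) (a 1) * ind G (a 2) (a 3))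
  simp only [Function.Embedding.trans_apply, Function.Embedding.coeFn_mk, Matrix.cons_val_zero,
    Matrix.cons_val_one, Matrix.cons_val] at h
  rw [h]
  congr 1
  rw [sum4 (fun a => ind G (a 0) (a 1) * ind G (a 2) (a 3))]
  unfold D
  simp

lemma rot_ne {k : ℕ} (hk : 3 ≤ k) (i : Fin k) : finRotate k i ≠ i := by
  obtain ⟨K, rfl⟩ : ∃ K, k = K + 1 := ⟨k - 1, by omega⟩
  rw [finRotate_apply]
  intro h
  have h1 : (1 : Fin (K + 1)) = 0 := by simpa using h
  have h2 := congrArg Fin.val h1
  rw [Fin.val_one'] at h2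
  simp only [Fin.val_zero] at h2
  rw [Nat.mod_eq_of_lt (by omega)] at h2
  omega

lemma rot_rot_ne {k : ℕ} (hk : 3 ≤ k) (i : Fin k) : finRotate k (finRotate k i) ≠ i := by
  obtain ⟨K, rfl⟩ : ∃ K, k = K + 1 := ⟨k - 1, by omega⟩
  rw [finRotate_apply, finRotate_apply, add_assoc]
  intro h
  have h1 : (1 + 1 : Fin (K + 1)) = 0 := by simpa using h
  have h2 := congrArg Fin.val h1
  rw [Fin.val_add, Fin.val_one'] at h2
  simp only [Fin.val_zero] at h2
  rw [Nat.mod_eq_of_lt (show 1 < K + 1 by omega), Nat.mod_eq_of_lt (by omega)] at h2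
  omega

lemma sumN {k : ℕ} (hk : 3 ≤ k) (G : SimpleGraph V) :
    E V 2 * ∑ v : Fin k ↪ V, NQ G v = k * (E V k * M G) := by
  unfold NQ
  rw [Finset.sum_comm, Finset.mul_sum]
  rw [Finset.sum_congr rfl (fun i _ => sum_pos2 G i (finRotate k i) (rot_ne hk i).symm)]
  simp

lemma E_pos {s : ℕ} (h : s ≤ Fintype.card V) : 0 < E V s := by
  rw [E_eq]
  exact_mod_cast Nat.descFactorial_pos.2 h

lemma sumN2 {k : ℕ} (hk : 3 ≤ k) (hV : 4 ≤ Fintype.card V) (G : SimpleGraph V) :
    ∑ v : Fin k ↪ V, NQ G v ^ 2 =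
      k * (E V k / E V 2 * M G + 2 * (E V k / E V 3) * Q G + (k - 3) * (E V k / E V 4) * D G) := by
  have E2 : E V 2 ≠ 0 := (E_pos (by omega)).ne'
  have E3 : E V 3 ≠ 0 := (E_pos (by omega)).ne'
  have E4 : E V 4 ≠ 0 := (E_pos (by omega)).ne'
  have p2 : ∀ i j : Fin k, i ≠ j → ∑ v : Fin k ↪ V, ind G (v i) (v j) = E V k / E V 2 * M G := by
    intro i j hij
    have := sum_pos2 (V := V) G i j hij
    field_simp
    linarith
  have p3 : ∀ i j l : Fin k, i ≠ j → i ≠ l → j ≠ l →
      ∑ v : Fin k ↪ V, ind G (v i) (v j) * ind G (v j) (v l) = E V k / E V 3 * Q G := by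
    intro i j l hij hil hjl
    have := sum_pos3 (V := V) G i j l hij hil hjl
    field_simp
    linarith
  have p4 : ∀ i j l m : Fin k, i ≠ j → i ≠ l → i ≠ m → j ≠ l → j ≠ m → l ≠ m →
      ∑ v : Fin k ↪ V, ind G (v i) (v j) * ind G (v l) (v m) = E V k / E V 4 * D G := by
    intro i j l m h1 h2 h3 h4 h5 h6
    have := sum_pos4 (V := V) G i j l m h1 h2 h3 h4 h5 h6
    field_simp
    linarith
  have h1 : ∀ v : Fin k ↪ V, NQ G v ^ 2 = ∑ i, ∑ j,
      ind G (v i) (v (finRotate k i)) * ind G (v j) (v (finRotate k j)) := by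
    intro v
    unfold NQ
    rw [sq, Finset.sum_mul_sum]
  simp only [h1]
  rw [Finset.sum_comm]
  have h2 : ∀ i : Fin k, ∑ v : Fin k ↪ V, ∑ j,
      ind G (v i) (v (finRotate k i)) * ind G (v j) (v (finRotate k j)) =
      E V k / E V 2 * M G + 2 * (E V k / E V 3) * Q G + (k - 3) * (E V k / E V 4) * D G := by
    intro i
    rw [Finset.sum_comm]
    set r := finRotate k with hr
    have hri : r i ≠ i := rot_ne hk i
    have hsi : r.symm i ≠ i := by
      intro h
      apply rot_ne hk i
      rw [← hr]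
      nth_rewrite 1 [← h]
      simp
    have hrs : r i ≠ r.symm i := by
      intro h
      apply rot_rot_ne hk i
      rw [← hr, h]
      simp
    rw [← Finset.add_sum_erase _ _ (mem_univ i)]
    have m1 : r i ∈ univ.erase i := by simp [hri]
    rw [← Finset.add_sum_erase _ _ m1]
    have m2 : r.symm i ∈ (univ.erase i).erase (r i) := by simp [hsi, hrs.symm]
    rw [← Finset.add_sum_erase _ _ m2]
    have t1 : ∑ v : Fin k ↪ V, ind G (v i) (v (r i)) * ind G (v i) (v (r i)) =
        E V k / E V 2 * M G := by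
      simp only [ind_sq]
      exact p2 i (r i) hri.symm
    have t2 : ∑ v : Fin k ↪ V, ind G (v i) (v (r i)) * ind G (v (r i)) (v (r (r i))) =
        E V k / E V 3 * Q G :=
      p3 i (r i) (r (r i)) hri.symm (rot_rot_ne hk i).symm (rot_ne hk (r i)).symm
    have t3 : ∑ v : Fin k ↪ V, ind G (v i) (v (r i)) *
        ind G (v (r.symm i)) (v (r (r.symm i))) = E V k / E V 3 * Q G := by
      rw [← p3 (r.symm i) i (r i) hsi hrs.symm hri.symm]
      refine Finset.sum_congr rfl fun v _ => ?_
      simp [mul_comm]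
    have t4 : ∑ j ∈ ((univ.erase i).erase (r i)).erase (r.symm i),
        ∑ v : Fin k ↪ V, ind G (v i) (v (r i)) * ind G (v j) (v (r j)) =
        (k - 3) * (E V k / E V 4) * D G := by
      rw [Finset.sum_congr rfl (g := fun _ => E V k / E V 4 * D G)]
      · rw [Finset.sum_const, Finset.card_erase_of_mem m2, Finset.card_erase_of_mem m1,
          Finset.card_erase_of_mem (mem_univ i)]
        simp only [card_univ, Fintype.card_fin, nsmul_eq_mul]
        have : ((k - 1 - 1 - 1 : ℕ) : ℚ) = (k : ℚ) - 3 := by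
          have : k - 1 - 1 - 1 = k - 3 := by omega
          rw [this, Nat.cast_sub hk]
          simp
        rw [this]; ring
      · intro j hj
        simp only [mem_erase, mem_univ, and_true, ne_eq] at hj
        obtain ⟨h3, h2, h1⟩ := hj
        refine p4 i (r i) j (r j) hri.symm (fun h => h1 h.symm) ?_ (fun h => h2 h.symm) ?_
          (rot_ne hk j).symm
        · intro h
          apply h3
          rw [h]; simp
        · intro h
          exact h1 (r.injective h).symm
    rw [t1, t2, t3, t4]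
    ring
  rw [Finset.sum_congr rfl (fun i _ => h2 i)]
  simp
  ring

end Pool.Agent.R5.FF
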