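import Pool.Agent.R5.FF.Defs
import Pool.Agent.R5.FF.Sums

set_option linter.unusedSectionVars false

namespace Pool.Agent.R5.FF

open Finset

variable {V : Type} [Fintype V] [DecidableEq V]

open Classical in
/-- adjacency indicator modulo two -/
noncomputable def A (G : SimpleGraph V) (x y : V) : ZMod 2 := if G.Adj x y then 1 else 0

lemma A_comm (G : SimpleGraph V) (x y : V) : A G x y = A G y x := by
  by_cases h : G.Adj x y
  · simp [A, h, h.symm]
  · have h' : ¬ G.Adj y x := fun h' => h h'.symm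
    simp [A, h, h']

lemma A_self (G : SimpleGraph V) (x : V) : A G x x = 0 := by simp [A]

/-- parity of a closed walk -/
noncomputable def par {k : ℕ} (G : SimpleGraph V) (v : Fin k ↪ V) : ZMod 2 :=
  ∑ i, A G (v i) (v (finRotate k i))

/-- the number of edges of `G` on the cycle -/
noncomputable def nn {k : ℕ} (G : SimpleGraph V) (v : Fin k ↪ V) : ℕ :=
  Nat.card {i : Fin k // G.Adj (v i) (v (finRotate k i))}

open Classical in
lemma nn_eq {k : ℕ} (G : SimpleGraph V) (v : Fin k ↪ V) :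
    nn G v = (univ.filter (fun i : Fin k => G.Adj (v i) (v (finRotate k i)))).card := by
  unfold nn
  rw [Nat.card_eq_fintype_card, Fintype.card_subtype]

lemma NQ_eq {k : ℕ} (G : SimpleGraph V) (v : Fin k ↪ V) : NQ G v = (nn G v : ℚ) := by
  classical
  rw [nn_eq]
  unfold NQ ind
  simp

lemma par_eq {k : ℕ} (G : SimpleGraph V) (v : Fin k ↪ V) : par G v = (nn G v : ZMod 2) := by
  classical
  rw [nn_eq]
  unfold par A
  simp

/-- the number of frustrated cycles, as a sum -/
noncomputable def o (k : ℕ) (G : SimpleGraph V) : ℚ :=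
  ∑ v : Fin k ↪ V, if par G v = 1 then 1 else 0

lemma frus_eq (k : ℕ) (G : SimpleGraph V) : (frus k G : ℚ) = o k G := by
  classical
  unfold frus o
  rw [Nat.card_eq_fintype_card, Fintype.card_subtype, Finset.card_filter]
  push_cast
  refine Finset.sum_congr rfl fun v _ => ?_
  have : Odd (Nat.card {i : Fin k // G.Adj (v i) (v (finRotate k i))}) ↔ par G v = 1 := by
    rw [par_eq, ← ZMod.natCast_eq_one_iff_odd]
    rfl
  simp only [this]

lemma odd_ge (n : ℕ) : (2 * (n : ℚ) - (n : ℚ) ^ 2) ≤ if (n : ZMod 2) = 1 then 1 else 0 := by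
  split_ifs with h
  · have : (0 : ℚ) ≤ ((n : ℚ) - 1) ^ 2 := sq_nonneg _
    nlinarith
  · rcases n with _ | _ | n
    · simp
    · simp at h
    · push_cast
      have : (0 : ℚ) ≤ n := Nat.cast_nonneg n
      nlinarith

lemma odd_eq (n : ℕ) (h : n ≤ 2) :
    (if (n : ZMod 2) = 1 then (1 : ℚ) else 0) = (2 * (n : ℚ) - (n : ℚ) ^ 2) := by
  interval_cases n
  · simp
  · norm_num
  · have : ((2 : ℕ) : ZMod 2) ≠ 1 := by decide
    rw [if_neg this]; norm_num

lemma E2 (h : 2 ≤ Fintype.card V) : E V 2 = (Fintype.card V : ℚ) * (Fintype.card V - 1) := by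
  rw [E_eq]
  rw [Nat.descFactorial_succ, Nat.descFactorial_succ, Nat.descFactorial_zero, Nat.sub_zero]
  push_cast [Nat.cast_sub (show 1 ≤ Fintype.card V by omega)]
  ring

lemma E3 (h : 3 ≤ Fintype.card V) : E V 3 = E V 2 * ((Fintype.card V : ℚ) - 2) := by
  rw [E_eq, E_eq, Nat.descFactorial_succ]
  push_cast [Nat.cast_sub (show 2 ≤ Fintype.card V by omega)]
  ring

lemma E4 (h : 4 ≤ Fintype.card V) : E V 4 = E V 3 * ((Fintype.card V : ℚ) - 3) := by
  rw [E_eq, E_eq, Nat.descFactorial_succ (Fintype.card V) 3]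
  push_cast [Nat.cast_sub (show 3 ≤ Fintype.card V by omega)]
  ring

lemma main_sum {k : ℕ} (hk : 3 ≤ k) (hV : 4 ≤ Fintype.card V) (G : SimpleGraph V) :
    ∑ v : Fin k ↪ V, (2 * NQ G v - NQ G v ^ 2) =
      k * (E V k / E V 3) * (M G * (Fintype.card V - 1 - M G / 2)) +
      k * (E V k / E V 3) * D G * (1 / 2 - (k - 3) / (Fintype.card V - 3)) := by
  have e2 : E V 2 ≠ 0 := (E_pos (by omega)).ne'
  have e3 : E V 3 ≠ 0 := (E_pos (by omega)).ne'
  have e4 : E V 4 ≠ 0 := (E_pos (by omega)).ne'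
  have hN := E3 (V := V) (by omega)
  have hN4 := E4 (V := V) (by omega)
  have hc : (4 : ℚ) ≤ Fintype.card V := by exact_mod_cast hV
  have n2 : (Fintype.card V : ℚ) - 2 ≠ 0 := by intro h; linarith
  have n3 : (Fintype.card V : ℚ) - 3 ≠ 0 := by intro h; linarith
  have h1 := sumN (V := V) hk G
  have h2 := sumN2 hk hV G
  rw [Finset.sum_sub_distrib, ← Finset.mul_sum, h2]
  have h3 : ∑ v : Fin k ↪ V, NQ G v = k * (E V k / E V 2 * M G) := by
    field_simp
    linarith
  rw [h3]
  have hid := identity G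
  have hQ : Q G = (M G ^ 2 - 2 * M G - D G) / 4 := by linarith
  rw [hQ, hN4, hN]
  field_simp
  ring

lemma lower {k : ℕ} (hk : 3 ≤ k) (hV : 2 * k ≤ Fintype.card V) (G : SimpleGraph V) :
    k * (E V k / E V 3) * (M G * (Fintype.card V - 1 - M G / 2)) ≤ o k G := by
  have h1 := main_sum hk (by omega) G
  have h2 : ∑ v : Fin k ↪ V, (2 * NQ G v - NQ G v ^ 2) ≤ o k G := by
    unfold o
    refine Finset.sum_le_sum fun v _ => ?_
    rw [NQ_eq, par_eq]
    exact odd_ge _
  have h3 : 0 ≤ k * (E V k / E V 3) * D G * (1 / 2 - (k - 3) / (Fintype.card V - 3 : ℚ)) := by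
    have hE : 0 ≤ E V k / E V 3 := div_nonneg (by unfold E; positivity) (by unfold E; positivity)
    have hc : (2 * k : ℚ) ≤ Fintype.card V := by exact_mod_cast hV
    have hk' : (3 : ℚ) ≤ k := by exact_mod_cast hk
    have : 0 ≤ (1 / 2 - (k - 3) / (Fintype.card V - 3 : ℚ)) := by
      rw [sub_nonneg, div_le_iff₀ (by linarith)]
      linarith
    have hD := D_nonneg G
    positivity
  linarith

lemma upper {k : ℕ} (hk : 3 ≤ k) (hV : 4 ≤ Fintype.card V) (G : SimpleGraph V)
    (hD : D G = 0) (hn : ∀ v : Fin k ↪ V, nn G v ≤ 2) :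
    o k G = k * (E V k / E V 3) * (M G * (Fintype.card V - 1 - M G / 2)) := by
  have h1 := main_sum hk hV G
  rw [hD] at h1
  simp only [mul_zero, zero_mul, add_zero] at h1
  rw [← h1]
  unfold o
  refine Finset.sum_congr rfl fun v _ => ?_
  rw [NQ_eq, par_eq]
  exact odd_eq _ (hn v)

lemma crude {k : ℕ} (hk : 3 ≤ k) (hV : 2 ≤ Fintype.card V) (G : SimpleGraph V) :
    o k G ≤ k * (E V k / E V 2 * M G) := by
  have e2 : E V 2 ≠ 0 := (E_pos (by omega)).ne'
  have h1 := sumN (V := V) hk G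
  have h3 : ∑ v : Fin k ↪ V, NQ G v = k * (E V k / E V 2 * M G) := by
    field_simp
    linarith
  rw [← h3]
  unfold o
  refine Finset.sum_le_sum fun v _ => ?_
  rw [NQ_eq, par_eq]
  split_ifs with h
  · have : nn G v ≠ 0 := by
      intro h0
      rw [h0] at h
      simp at h
    exact_mod_cast Nat.one_le_iff_ne_zero.2 this
  · positivity

/-- adding a cut does not change the parities -/
lemma par_switch {k : ℕ} (G H : SimpleGraph V) (χ : V → ZMod 2) (ρ : ZMod 2)
    (h : ∀ x y, x ≠ y → A H x y = A G x y + χ x + χ y + ρ) (v : Fin k ↪ V)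
    (hrot : ∀ i : Fin k, finRotate k i ≠ i) :
    par H v = par G v + k * ρ := by
  unfold par
  have h1 : ∀ i : Fin k, A H (v i) (v (finRotate k i)) =
      A G (v i) (v (finRotate k i)) + χ (v i) + χ (v (finRotate k i)) + ρ := by
    intro i
    apply h
    intro h'
    exact hrot i (v.injective h').symm
  simp only [h1, Finset.sum_add_distrib]
  rw [Equiv.sum_comp (finRotate k) (fun i => χ (v i))]
  simp only [sum_const, card_univ, Fintype.card_fin, nsmul_eq_mul]
  rw [add_assoc (∑ i, _), CharTwo.add_self_eq_zero, add_zero]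

end Pool.Agent.R5.FF
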