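import Pool.Agent.R5.FF.Four

set_option linter.unusedSectionVars false

namespace Pool.Agent.R5.FF

open Finset

variable {V : Type} [Fintype V] [DecidableEq V]

/-- the common value of a vertex -/
noncomputable def vl (G : SimpleGraph V) (s e x : V) : ZMod 2 := A G e x + A G x s + A G s e

lemma vl_add (G : SimpleGraph V) (s e x y : V) :
    p4 G s e x y + p4 G s e y x = vl G s e x + vl G s e y := by
  unfold p4 vl
  rw [A_comm G y x]
  have key : ∀ a b c d f g : ZMod 2, a + b + c + d + (a + g + c + f) = b + f + a + (g + d + a) := by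
    decide
  exact key _ _ _ _ _ _

lemma bad_eq (G : SimpleGraph V) (s e : V) : bad G s e =
    ((univ.filter (fun p : V × V => s ≠ p.1 ∧ s ≠ p.2 ∧ e ≠ p.1 ∧ e ≠ p.2 ∧ p.1 ≠ p.2 ∧
      p4 G s e p.1 p.2 = 1)).card : ℚ) := by
  unfold bad b4
  rw [Finset.card_filter]
  push_cast
  rw [Fintype.sum_prod_type]
  refine Finset.sum_congr rfl fun x _ => Finset.sum_congr rfl fun y _ => ?_
  by_cases h : s ≠ x ∧ s ≠ y ∧ e ≠ x ∧ e ≠ y ∧ x ≠ y
  · rw [if_pos h]
    by_cases h' : p4 G s e x y = 1
    · rw [if_pos h', if_pos ⟨h.1, h.2.1, h.2.2.1, h.2.2.2.1, h.2.2.2.2, h'⟩]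
    · rw [if_neg h', if_neg (fun hh => h' hh.2.2.2.2.2)]
  · rw [if_neg h, if_neg (fun hh => h ⟨hh.1, hh.2.1, hh.2.2.1, hh.2.2.2.1, hh.2.2.2.2.1⟩)]

lemma vl_const (G : SimpleGraph V) (s e : V)
    (hB : bad G s e < (Fintype.card V : ℚ) - 4) (x0 x1 : V) (h0s : x0 ≠ s) (h0e : x0 ≠ e)
    (h1s : x1 ≠ s) (h1e : x1 ≠ e) : vl G s e x0 = vl G s e x1 := by
  by_contra hne
  have hx : x0 ≠ x1 := by rintro rfl; exact hne rfl
  set Bad := univ.filter (fun p : V × V => s ≠ p.1 ∧ s ≠ p.2 ∧ e ≠ p.1 ∧ e ≠ p.2 ∧ p.1 ≠ p.2 ∧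
      p4 G s e p.1 p.2 = 1) with hBad
  have hsub : univ \ {s, e, x0, x1} ⊆
      Bad.image (fun p => if p.1 = x0 ∨ p.1 = x1 then p.2 else p.1) := by
    intro y hy
    simp only [mem_sdiff, mem_univ, mem_insert, mem_singleton, not_or, true_and] at hy
    obtain ⟨hys, hye, hy0, hy1⟩ := hy
    have hz : ∃ z, (z = x0 ∨ z = x1) ∧ z ≠ s ∧ z ≠ e ∧ z ≠ y ∧ vl G s e z + vl G s e y = 1 := by
      have key : ∀ a b c : ZMod 2, a ≠ b → a + c = 1 ∨ b + c = 1 := by decide
      rcases key _ _ (vl G s e y) hne with h | h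
      · exact ⟨x0, Or.inl rfl, h0s, h0e, fun h => hy0 h.symm, h⟩
      · exact ⟨x1, Or.inr rfl, h1s, h1e, fun h => hy1 h.symm, h⟩
    obtain ⟨z, hz01, hzs, hze, hzy, hv⟩ := hz
    rw [← vl_add] at hv
    have key : ∀ a b : ZMod 2, a + b = 1 → a = 1 ∨ b = 1 := by decide
    simp only [mem_image]
    rcases key _ _ hv with h | h
    · refine ⟨(z, y), ?_, ?_⟩
      · simp only [hBad, mem_filter, mem_univ, true_and]
        exact ⟨fun h => hzs h.symm, fun h => hys h.symm, fun h => hze h.symm,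
          fun h => hye h.symm, hzy, h⟩
      · simp only [hz01, if_true]
    · refine ⟨(y, z), ?_, ?_⟩
      · simp only [hBad, mem_filter, mem_univ, true_and]
        exact ⟨fun h => hys h.symm, fun h => hzs h.symm, fun h => hye h.symm,
          fun h => hze h.symm, hzy.symm, h⟩
      · simp [hy0, hy1]
  have h1 := (Finset.card_le_card hsub).trans Finset.card_image_le
  have h2 : Fintype.card V - 4 ≤ (univ \ {s, e, x0, x1} : Finset V).card := by
    have h3 := Finset.le_card_sdiff ({s, e, x0, x1} : Finset V) (univ : Finset V)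
    have h4 : ({s, e, x0, x1} : Finset V).card ≤ 4 := Finset.card_le_four
    rw [Finset.card_univ] at h3
    omega
  rw [bad_eq, ← hBad] at hB
  have h5 : Fintype.card V ≤ Bad.card + 4 := by omega
  have h6 : (Fintype.card V : ℚ) ≤ Bad.card + 4 := by exact_mod_cast h5
  linarith

lemma struct (G : SimpleGraph V) (s e : V) (hse : s ≠ e)
    (hB : bad G s e < (Fintype.card V : ℚ) - 4) :
    ∃ (χ : V → ZMod 2) (ρ : ZMod 2),
      ∑ x, ∑ y, (if x ≠ y ∧ A G x y + χ x + χ y + ρ = 1 then (1 : ℚ) else 0) ≤ bad G s e := by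
  have hb := bad_nonneg G s e
  have hN : 4 < Fintype.card V := by
    have : (4 : ℚ) < Fintype.card V := by linarith
    exact_mod_cast this
  obtain ⟨x0, hx0⟩ : ∃ x0, x0 ∉ ({s, e} : Finset V) := by
    by_contra hcon
    push Not at hcon
    have h1 : (univ : Finset V) ⊆ {s, e} := fun x _ => hcon x
    have h2 := Finset.card_le_card h1
    have h3 : ({s, e} : Finset V).card ≤ 2 := Finset.card_le_two
    rw [Finset.card_univ] at h2
    omega
  simp only [mem_insert, mem_singleton, not_or] at hx0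
  set ρ := vl G s e x0 with hρ
  have hv : ∀ y, y ≠ s → y ≠ e → ρ = vl G s e y := fun y hys hye =>
    vl_const G s e hB x0 y hx0.1 hx0.2 hys hye
  refine ⟨fun x => if x = e then ρ else A G e x, ρ, ?_⟩
  unfold bad
  refine Finset.sum_le_sum fun x _ => Finset.sum_le_sum fun y _ => ?_
  by_cases h : x ≠ y ∧ A G x y + (if x = e then ρ else A G e x) +
      (if y = e then ρ else A G e y) + ρ = 1
  · rw [if_pos h]
    obtain ⟨hxy, h⟩ := h
    have hxe : x ≠ e := by
      rintro rfl
      rw [if_pos rfl, if_neg (fun h => hxy h.symm)] at h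
      have key : ∀ a b : ZMod 2, ¬ (a + b + a + b = 1) := by decide
      exact key _ _ h
    have hye : y ≠ e := by
      rintro rfl
      rw [if_pos rfl, if_neg hxy, A_comm G x y] at h
      have key : ∀ a b : ZMod 2, ¬ (a + a + b + b = 1) := by decide
      exact key _ _ h
    rw [if_neg hxe, if_neg hye] at h
    have hxs : x ≠ s := by
      rintro rfl
      rw [hv y hxy.symm hye] at h
      unfold vl at h
      rw [A_comm G y x, A_comm G e x] at h
      have key : ∀ a b c : ZMod 2, ¬ (a + b + c + (c + a + b) = 1) := by decide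
      exact key _ _ _ h
    have hys : y ≠ s := by
      rintro rfl
      rw [hv x hxy hxe] at h
      unfold vl at h
      rw [A_comm G e y] at h
      have key : ∀ a b c : ZMod 2, ¬ (a + b + c + (b + a + c) = 1) := by decide
      exact key _ _ _ h
    rw [if_pos ⟨hxs.symm, hys.symm, hxe.symm, hye.symm, hxy⟩]
    unfold b4
    have hp : p4 G s e x y = 1 := by
      rw [hv y hys hye] at h
      unfold vl at h
      unfold p4
      have key : ∀ a b c d f : ZMod 2, a + b + c + (c + d + f) = 1 → f + b + a + d = 1 := by decide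
      exact key _ _ _ _ _ h
    rw [if_pos hp]
  · rw [if_neg h]
    unfold b4
    split_ifs <;> simp

end Pool.Agent.R5.FF
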